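import Pool.Agent.Q161.ESM.Stm2
import Pool.Agent.Q247.EL.CNT
import Pool.Agent.W54.Cheb.Tor
import Pool.Agent.H58P.Rad

/-!
# Project ESM (helper161), job FRX: Frobenius elements at unramified primes
-/

set_option autoImplicit false
set_option linter.unusedSectionVars false

namespace Pool.Agent.Q224.ESM

open NumberField IsDedekindDomain Finset
open Pool.Agent.Q161.ESM
open Pool.Agent.Q51.EL (pr Abv N1)
open Pool.Agent.Q247.EL (VV finite_VV prod_card card_eq_norm finite_k)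

theorem exists_hom' {B : Type} [CommRing B] [Algebra.IsIntegral ℤ B] (p : ℕ) [Fact p.Prime]
    (Q : Ideal B) (hQ : Q.IsMaximal) (hp : ((p : ℕ) : B) ∈ Q) :
    ∃ f : B →+* AlgebraicClosure (ZMod p), ∀ x, f x = 0 ↔ x ∈ Q := by
  let : Field (B ⧸ Q) := Ideal.Quotient.field Q
  have hp0 : ((p : ℕ) : B ⧸ Q) = 0 := by
    have h2 := Ideal.Quotient.eq_zero_iff_mem.mpr hp
    rwa [map_natCast] at h2
  have : CharP (B ⧸ Q) p := (CharP.charP_iff_prime_eq_zero Fact.out).mpr hp0
  let : Algebra (ZMod p) (B ⧸ Q) := ZMod.algebra _ p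
  have : Algebra.IsAlgebraic (ZMod p) (B ⧸ Q) := by
    constructor
    intro y
    obtain ⟨b, rfl⟩ := Ideal.Quotient.mk_surjective y
    obtain ⟨q, hq, hq'⟩ := Algebra.IsIntegral.isIntegral (R := ℤ) b
    apply IsIntegral.isAlgebraic
    refine ⟨q.map (Int.castRingHom (ZMod p)), hq.map _, ?_⟩
    rw [Polynomial.eval₂_map]
    have h3 : (algebraMap (ZMod p) (B ⧸ Q)).comp (Int.castRingHom (ZMod p)) =
        (Ideal.Quotient.mk Q).comp (algebraMap ℤ B) := RingHom.ext_int _ _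
    rw [h3, ← Polynomial.hom_eval₂, hq', map_zero]
  let ℓ : (B ⧸ Q) →ₐ[ZMod p] AlgebraicClosure (ZMod p) := IsAlgClosed.lift
  refine ⟨(ℓ : (B ⧸ Q) →+* AlgebraicClosure (ZMod p)).comp (Ideal.Quotient.mk Q), fun x => ?_⟩
  rw [RingHom.comp_apply, ← Ideal.Quotient.eq_zero_iff_mem]
  exact map_eq_zero_iff _ (RingHom.injective _)

section

variable {K : Type} [Field K] [NumberField K] {l : ℕ}

theorem under_l (hl : l.Prime) (w : HeightOneSpectrum (𝓞 K)) (hw : Abv w l) :
    w.asIdeal.under ℤ = Ideal.span {(l : ℤ)} := by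
  have hmax : (Ideal.span {(l : ℤ)}).IsMaximal :=
    PrincipalIdealRing.isMaximal_of_irreducible (Nat.prime_iff_prime_int.1 hl).irreducible
  have h1 : Ideal.span {(l : ℤ)} ≤ w.asIdeal.under ℤ := by
    rw [Ideal.span_singleton_le_iff_mem, Ideal.under, Ideal.mem_comap]
    have : (l : 𝓞 K) ∈ w.asIdeal := hw
    simpa using this
  have := w.isPrime
  exact (hmax.eq_of_le (Ideal.IsPrime.ne_top inferInstance) h1).symm

theorem card_pow (hl : l.Prime) (w : HeightOneSpectrum (𝓞 K)) (hw : Abv w l) :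
    ∃ f : ℕ, 0 < f ∧ Nat.card (𝓞 K ⧸ w.asIdeal) = l ^ f := by
  have h1 : Ideal.absNorm w.asIdeal = Nat.card (𝓞 K ⧸ w.asIdeal) := by
    rw [Ideal.absNorm_apply, Submodule.cardQuot_apply]
  have h2 : Ideal.absNorm w.asIdeal ∣ l ^ Module.finrank ℤ (𝓞 K) := by
    rw [← Ideal.absNorm_span_natCast]
    apply Ideal.absNorm_dvd_absNorm_of_le
    rw [Ideal.span_singleton_le_iff_mem]
    exact hw
  rw [Nat.dvd_prime_pow hl] at h2
  obtain ⟨k, _, hk⟩ := h2
  refine ⟨k, ?_, by rw [← h1, hk]⟩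
  rcases Nat.eq_zero_or_pos k with rfl | hk0
  · rw [pow_zero, Ideal.absNorm_eq_one_iff] at hk
    exact absurd hk w.isPrime.ne_top
  · exact hk0

variable [IsGalois ℚ K]

theorem fb_exists (hl : l.Prime) (w : HeightOneSpectrum (𝓞 K)) (hw : Abv w l) :
    ∃ F : K ≃ₐ[ℚ] K, Fb w l F := by
  have : Finite (𝓞 K ⧸ w.asIdeal) := Ideal.finiteQuotientOfFreeOfNeBot w.asIdeal w.ne_bot
  have := w.isPrime
  obtain ⟨σ, hσ⟩ := IsArithFrobAt.exists_of_isInvariant ℤ (K ≃ₐ[ℚ] K) w.asIdeal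
  have hc : Nat.card (ℤ ⧸ w.asIdeal.under ℤ) = l := by
    rw [under_l hl w hw, Nat.card_congr (Int.quotientSpanNatEquivZMod l).toEquiv, Nat.card_zmod]
  refine ⟨σ, fun x y hxy => ?_⟩
  have h1 := hσ x
  rw [hc] at h1
  have h2 : y = σ • x := RingOfIntegers.ext hxy
  rw [h2]
  exact h1

end

theorem frx : S_FRX := by
  intro K _ _ _
  obtain ⟨D, hD0, hD⟩ := W54.ChTor.main K
  refine ⟨D * (discr K).natAbs, mul_ne_zero hD0.ne' (Int.natAbs_ne_zero.2 (discr_ne_zero K)),
    fun l hl hlB => ?_⟩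
  have hl1 : ¬ l ∣ D := fun h => hlB (h.mul_right _)
  have hl2 : ¬ (l : ℤ) ∣ discr K := fun h => hlB ((Int.natCast_dvd.1 h).mul_left _)
  have hsq := Pool.Agent.H58P.squarefree_span l hl hl2
  have hlF : Fact l.Prime := ⟨hl⟩
  obtain ⟨-, htor, -⟩ := hD l hl1
  have hfin := finite_VV K hl
  have hft : Fintype (VV K l) := Fintype.ofFinite _
  have hprod := prod_card K hl hsq
  have hn : 0 < Module.finrank ℚ K := Module.finrank_pos
  have hl2' := hl.two_le
  -- trivial inertia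
  have inert : ∀ w : HeightOneSpectrum (𝓞 K), Abv w l → ∀ σ : Gal(K/ℚ),
      (∀ x : 𝓞 K, σ • x - x ∈ w.asIdeal) → σ = 1 := by
    intro w hw σ hσ
    obtain ⟨f, hf⟩ := exists_hom' l w.asIdeal w.isMaximal hw
    obtain ⟨τ, -, hτ⟩ := htor f f
    have e1 := hτ σ (fun x => by
      have h1 := (hf _).2 (hσ x)
      rw [map_sub, sub_eq_zero] at h1
      exact h1.symm)
    have e2 := hτ 1 (fun x => by rw [one_smul])
    rw [e1, e2]
  -- all residue fields have the same order
  have same : ∀ v w : HeightOneSpectrum (𝓞 K), Abv v l → Abv w l →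
      Nat.card (𝓞 K ⧸ v.asIdeal) = Nat.card (𝓞 K ⧸ w.asIdeal) := by
    intro v w hv hw
    obtain ⟨f, hf⟩ := exists_hom' l v.asIdeal v.isMaximal hv
    obtain ⟨g, hg⟩ := exists_hom' l w.asIdeal w.isMaximal hw
    obtain ⟨σ, hσ, -⟩ := htor g f
    have hIJ : w.asIdeal = v.asIdeal.map ((MulSemiringAction.toRingEquiv Gal(K/ℚ) (𝓞 K) σ :
        𝓞 K ≃+* 𝓞 K) : 𝓞 K →+* 𝓞 K) := by
      ext y
      rw [Ideal.mem_map_iff_of_surjective ((MulSemiringAction.toRingEquiv Gal(K/ℚ) (𝓞 K) σ :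
        𝓞 K ≃+* 𝓞 K) : 𝓞 K →+* 𝓞 K)
        (RingEquiv.surjective (MulSemiringAction.toRingEquiv Gal(K/ℚ) (𝓞 K) σ))]
      constructor
      · intro hy
        refine ⟨σ⁻¹ • y, ?_, ?_⟩
        · rw [← hf, hσ, smul_inv_smul, hg]
          exact hy
        · exact smul_inv_smul σ y
      · rintro ⟨x, hx, rfl⟩
        rw [← hf, hσ, hg] at hx
        exact hx
    exact Nat.card_congr (Ideal.quotientEquiv v.asIdeal w.asIdeal _ hIJ).toEquiv
  -- primes of degree one
  have hone : N1 K l ≠ 0 → (∀ w : HeightOneSpectrum (𝓞 K), Abv w l →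
      Nat.card (𝓞 K ⧸ w.asIdeal) = l) ∧ N1 K l = Module.finrank ℚ K := by
    intro h0
    obtain ⟨⟨v, hv⟩, -⟩ : Nonempty {v : HeightOneSpectrum (𝓞 K) // Ideal.absNorm v.asIdeal = l} ∧ True := by
      refine ⟨?_, trivial⟩
      by_contra hne
      rw [not_nonempty_iff] at hne
      exact h0 Nat.card_of_isEmpty
    have habv : ∀ v : HeightOneSpectrum (𝓞 K), Ideal.absNorm v.asIdeal = l → Abv v l := by
      intro v hv
      have := Ideal.absNorm_mem v.asIdeal
      rw [hv] at this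
      exact this
    have hcv : Nat.card (𝓞 K ⧸ v.asIdeal) = l := by
      rw [← hv, Ideal.absNorm_apply, Submodule.cardQuot_apply]
    have hall : ∀ w : HeightOneSpectrum (𝓞 K), Abv w l → Nat.card (𝓞 K ⧸ w.asIdeal) = l :=
      fun w hw => (same w v hw (habv v hv)).trans hcv
    refine ⟨hall, ?_⟩
    rw [Finset.prod_congr rfl fun (w : VV K l) _ => hall w.1 w.2, Finset.prod_const, Finset.card_univ] at hprod
    have h1 := Nat.pow_right_injective hl2' hprod
    rw [← h1, ← Nat.card_eq_fintype_card]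
    unfold N1
    refine Nat.card_congr (Equiv.subtypeEquivRight fun w => ⟨habv w, fun hw => ?_⟩)
    rw [Ideal.absNorm_apply, Submodule.cardQuot_apply]
    exact hall w hw
  refine ⟨hsq, ?_, fun w hw => ⟨fb_exists hl w hw, fun F hF => ?_⟩⟩
  · by_contra hne
    push Not at hne
    have hemp : IsEmpty (VV K l) := ⟨fun w => hne w.1 w.2⟩
    rw [Finset.prod_of_isEmpty] at hprod
    have := Nat.one_lt_pow hn.ne' (show 1 < l by omega)
    omega
  · obtain ⟨f, hf0, hf⟩ := card_pow hl w hw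
    have hFf : F ^ f = 1 := by
      refine inert w hw _ fun x => ?_
      have hstep : ∀ m : ℕ, ∀ x : 𝓞 K, (F ^ m) • x - x ^ (l ^ m) ∈ w.asIdeal := by
        intro m
        induction m with
        | zero => intro x; simp
        | succ m ih =>
          intro x
          have h1 : F • x - x ^ l ∈ w.asIdeal := hF x (F • x) rfl
          have h2 := ih (F • x)
          have h3 : (F • x) ^ l ^ m - (x ^ l) ^ l ^ m ∈ w.asIdeal :=
            Ideal.mem_of_dvd _ (sub_dvd_pow_sub_pow _ _ _) h1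
          have h4 : (F ^ (m + 1)) • x = (F ^ m) • (F • x) := by rw [pow_succ, mul_smul]
          have h5 : x ^ l ^ (m + 1) = (x ^ l) ^ l ^ m := by rw [← pow_mul, pow_succ', ]
          rw [h4, h5]
          have h6 := w.asIdeal.add_mem h2 h3
          simpa using h6
      have h1 := hstep f x
      have h2 : x ^ (l ^ f) - x ∈ w.asIdeal := by
        have := w.isMaximal
        let _ : Field (𝓞 K ⧸ w.asIdeal) := Ideal.Quotient.field w.asIdeal
        have : Finite (𝓞 K ⧸ w.asIdeal) := Ideal.finiteQuotientOfFreeOfNeBot w.asIdeal w.ne_bot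
        have hfty : Fintype (𝓞 K ⧸ w.asIdeal) := Fintype.ofFinite _
        rw [← Ideal.Quotient.eq_zero_iff_mem, map_sub, map_pow, ← hf, Nat.card_eq_fintype_card,
          FiniteField.pow_card, sub_self]
      have h3 := w.asIdeal.add_mem h1 h2
      simpa using h3
    refine ⟨f, hf0, hf, hFf, fun h => ?_, fun h => ?_⟩
    · obtain ⟨h1, -⟩ := hone (by omega)
      have h2 : l ^ f = l ^ 1 := by rw [← hf, h1 w hw, pow_one]
      have h3 : f = 1 := Nat.pow_right_injective hl2' h2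
      rw [h3, pow_one] at hFf
      exact ⟨hFf, h3⟩
    · by_contra h0
      exact h (hone h0).2

end Pool.Agent.Q224.ESM
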